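import Pool.Agent.Y300.KS.Stm

/-! Kostlan systems: the blocks (jobs KS-BLK). -/

open Set

namespace Pool.Agent.Y839.KS

open Pool.Agent.K300 Pool.Agent.Y300.KS

theorem card_all : S_CARD := by
  intro n I J G N q
  unfold kc bd
  set L := ell n / (2 * G) with hL
  rw [Finset.card_filter, Finset.sum_product]
  have h1 : ∀ i ∈ Finset.Ico (I + q.1 * ell n) (I + q.1 * ell n + 2 * L),
      ∑ j ∈ Finset.Ico (J + q.2.1 * ell n) (J + q.2.1 * ell n + 2 * L),
        (if ((i, j).1 + (i, j).2) % 2 = (q.2.2 : ℕ) then 1 else 0) = L := by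
    intro i _
    exact sum_parity _ i _ L q.2.2.2
  rw [Finset.sum_congr rfl h1, Finset.sum_const, Nat.card_Ico, smul_eq_mul]
  have e : I + q.1 * ell n + 2 * L - (I + q.1 * ell n) = 2 * L := by omega
  rw [e]
  ring

theorem bd_mul {n G : ℕ} : G * bd n G ≤ ell n := by
  unfold bd
  have h := Nat.div_mul_le_self (ell n) (2 * G)
  calc G * (2 * (ell n / (2 * G))) = ell n / (2 * G) * (2 * G) := by ring
    _ ≤ ell n := h

theorem bd_le {n G : ℕ} (hG : 1 ≤ G) : bd n G ≤ ell n :=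
  (Nat.le_mul_of_pos_left _ hG).trans bd_mul

theorem mem_kc {n I J G N : ℕ} {q : Cx N} {m : ℕ × ℕ} (h : m ∈ kc n I J G q) :
    (I + q.1 * ell n ≤ m.1 ∧ m.1 < I + q.1 * ell n + bd n G) ∧
    (J + q.2.1 * ell n ≤ m.2 ∧ m.2 < J + q.2.1 * ell n + bd n G) ∧
    (m.1 + m.2) % 2 = (q.2.2 : ℕ) := by
  unfold kc at h
  rw [Finset.mem_filter, Finset.mem_product, Finset.mem_Ico, Finset.mem_Ico] at h
  exact ⟨h.1.1, h.1.2, h.2⟩

theorem sx_bound {n I G a i : ℕ} (hG : 1 ≤ G) (hl : 0 < ell n) (h1 : I + a * ell n ≤ i)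
    (h2 : i < I + a * ell n + bd n G) : |sx n I i - (a : ℕ)| ≤ 1 / G := by
  have hl' : (0:ℝ) < ell n := by exact_mod_cast hl
  have hG' : (0:ℝ) < G := by exact_mod_cast hG
  have h3 : sx n I i - (a : ℕ) = ((i : ℝ) - I - a * ell n) / ell n := by
    unfold sx
    field_simp
  have h4 : (0:ℝ) ≤ (i : ℝ) - I - a * ell n := by
    have : ((I + a * ell n : ℕ) : ℝ) ≤ i := by exact_mod_cast h1
    push_cast at this
    linarith
  have h5 : (i : ℝ) - I - a * ell n ≤ bd n G := by
    have : (i : ℝ) ≤ ((I + a * ell n + bd n G : ℕ) : ℝ) := by exact_mod_cast h2.le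
    push_cast at this
    linarith
  have h6 : (G : ℝ) * bd n G ≤ ell n := by exact_mod_cast bd_mul (n := n) (G := G)
  rw [h3, abs_of_nonneg (div_nonneg h4 hl'.le), div_le_div_iff₀ hl' hG']
  nlinarith

theorem kc_aux {a ℓ N b I i : ℕ} (ha : a < N) (hb : b ≤ ℓ) (h : i < I + a * ℓ + b) :
    i ≤ I + N * ℓ := by
  have h1 : (a + 1) * ℓ ≤ N * ℓ := Nat.mul_le_mul_right _ ha
  have h2 : (a + 1) * ℓ = a * ℓ + ℓ := by ring
  omega

theorem kc_disj {a a' ℓ b I i : ℕ} (hb : b ≤ ℓ) (h : i < I + a * ℓ + b) (h' : I + a' * ℓ ≤ i)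
    (haa : a < a') : False := by
  have h1 : (a + 1) * ℓ ≤ a' * ℓ := Nat.mul_le_mul_right _ haa
  have h2 : (a + 1) * ℓ = a * ℓ + ℓ := by ring
  omega

theorem blk_all : S_BLK := by
  intro G N N₀ hG
  set L := 4 * G + 2 * G * (N₀ + 2) + 10 * (N + 1) with hL
  refine ⟨max (L * L) (2 ^ (N + 1)), fun n hn I J hC => ?_⟩
  have hn1 : L * L ≤ n := le_trans (le_max_left _ _) hn
  have hn2 : 2 ^ (N + 1) ≤ n := le_trans (le_max_right _ _) hn
  have hell : L ≤ ell n := Nat.le_sqrt.2 hn1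
  have hsq : ell n * ell n ≤ n := Nat.sqrt_le n
  have hlog : N + 1 ≤ Nat.log 2 n :=
    (Nat.le_log_iff_pow_le (by norm_num) (by
      have : 0 < 2 ^ (N + 1) := by positivity
      omega)).2 hn2
  have hrad : N ≤ rad n := by
    unfold rad
    omega
  have hpos : 0 < ell n := by
    have : 0 < L := by omega
    omega
  have hbd : bd n G ≤ ell n := bd_le hG
  constructor
  · intro q
    have hq1 : (q.1 : ℕ) < N := q.1.2
    have hq2 : (q.2.1 : ℕ) < N := q.2.1.2
    have hcard := card_all n I J G N q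
    refine ⟨?_, ?_, ?_, ?_⟩
    · have h1 : N₀ + 2 ≤ ell n / (2 * G) := by
        rw [Nat.le_div_iff_mul_le (by omega)]
        have : (N₀ + 2) * (2 * G) = 2 * G * (N₀ + 2) := by ring
        omega
      have h2 : bd n G = 2 * (ell n / (2 * G)) := rfl
      rw [h2] at hcard
      set t := ell n / (2 * G) with ht
      nlinarith
    · intro m hm
      obtain ⟨h1, h2, -⟩ := mem_kc hm
      have h3 := kc_aux hq1 hbd h1.2
      have h4 := kc_aux hq2 hbd h2.2
      have h5 : N * ell n ≤ rad n * ell n := Nat.mul_le_mul_right _ hrad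
      have h6 : 10 * (N + 1) * ell n ≤ ell n * ell n := Nat.mul_le_mul_right _ (by omega)
      have h6' : 10 * (N + 1) * ell n = 10 * (N * ell n) + 10 * ell n := by ring
      have h7 := hC.hK
      unfold wdw
      rw [Finset.mem_filter, mem_tri]
      refine ⟨?_, ⟨?_, ?_⟩, ?_, ?_⟩
      · omega
      · have := h1.1
        omega
      · omega
      · have := h2.1
        omega
      · omega
    · have h1 : √(2 * (kc n I J G q).card : ℝ) = bd n G := by
        have h2 : (2 * (kc n I J G q).card : ℝ) = (bd n G : ℝ) ^ 2 := by exact_mod_cast hcard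
        rw [h2, Real.sqrt_sq (Nat.cast_nonneg _)]
      rw [h1]
      have h3 : ell n ≤ 2 * G * bd n G := by
        unfold bd
        have h4 := Nat.lt_div_mul_add (a := ell n) (b := 2 * G) (by omega)
        have h5 : 2 * G * (2 * (ell n / (2 * G))) = 2 * (ell n / (2 * G) * (2 * G)) := by ring
        rw [h5]
        omega
      exact_mod_cast h3
    · intro m hm
      obtain ⟨h1, h2, -⟩ := mem_kc hm
      exact ⟨sx_bound hG hpos h1.1 h1.2, sx_bound hG hpos h2.1 h2.2⟩
  · intro q q' hqq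
    rw [Finset.disjoint_left]
    intro m hm hm'
    obtain ⟨h1, h2, h3⟩ := mem_kc hm
    obtain ⟨h1', h2', h3'⟩ := mem_kc hm'
    apply hqq
    have e1 : q.1 = q'.1 := by
      apply Fin.ext
      rcases lt_trichotomy (q.1 : ℕ) (q'.1 : ℕ) with h | h | h
      · exact (kc_disj hbd h1.2 h1'.1 h).elim
      · exact h
      · exact (kc_disj hbd h1'.2 h1.1 h).elim
    have e2 : q.2.1 = q'.2.1 := by
      apply Fin.ext
      rcases lt_trichotomy (q.2.1 : ℕ) (q'.2.1 : ℕ) with h | h | h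
      · exact (kc_disj hbd h2.2 h2'.1 h).elim
      · exact h
      · exact (kc_disj hbd h2'.2 h2.1 h).elim
    have e3 : q.2.2 = q'.2.2 := Fin.ext (h3.symm.trans h3')
    exact Prod.ext e1 (Prod.ext e2 e3)

end Pool.Agent.Y839.KS
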